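import Pool.Agent.helper91.RB.Spec5

set_option autoImplicit false

namespace Pool.Agent.RB

open NumberField IsDedekindDomain Module
open scoped nonZeroDivisors Real Classical IsMulCommutative

theorem ARS_mem {K : Type} [Field K] [NumberField K] (σ : K ≃+* K) (P : HOS K) (x : 𝓞 K) :
    x ∈ (act σ P).asIdeal ↔ (RingOfIntegers.mapRingEquiv σ).symm x ∈ P.asIdeal := Iff.rfl

theorem ARS : ARS_stmt := by
  intro F K H _ _ _ _ _ _ _ _ _ _ _ _ σ P
  refine HeightOneSpectrum.ext (Ideal.ext fun x => ?_)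
  change algebraMap (𝓞 K) (𝓞 H) x ∈ (act (σ : H ≃+* H) P).asIdeal ↔
    x ∈ (act ((AlgEquiv.restrictNormalHom K σ : K ≃ₐ[F] K) : K ≃+* K) (P.under (𝓞 K))).asIdeal
  rw [ARS_mem, ARS_mem]
  have h1 : (RingOfIntegers.mapRingEquiv (σ : H ≃+* H)).symm (algebraMap (𝓞 K) (𝓞 H) x) =
      algebraMap (𝓞 K) (𝓞 H) ((RingOfIntegers.mapRingEquiv
        ((AlgEquiv.restrictNormalHom K σ : K ≃ₐ[F] K) : K ≃+* K)).symm x) := by
    rw [RingEquiv.symm_apply_eq]
    refine RingOfIntegers.ext ?_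
    obtain ⟨y, rfl⟩ := (RingOfIntegers.mapRingEquiv
      ((AlgEquiv.restrictNormalHom K σ : K ≃ₐ[F] K) : K ≃+* K)).surjective x
    rw [RingEquiv.symm_apply_apply]
    exact (AlgEquiv.restrictNormal_commutes σ K (y : K))
  rw [h1]
  exact Iff.rfl

end Pool.Agent.RB
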